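import Mathlib

set_option autoImplicit false
open Set Filter Topology ComplexConjugate

namespace Pool.Agent.H.MP_54c5a6

abbrev Ix (Γ : Type) : Type := Option (Γ ⊕ Γ × Γ)

variable {Γ : Type}

abbrev c1 (a : Γ) : Ix Γ := some (Sum.inl a)
abbrev c2 (a b : Γ) : Ix Γ := some (Sum.inr (a, b))

def L : Set ℂ := {2, -2, 3 * Complex.I, -(3 * Complex.I)}

def P (ψ : Ix Γ → ℂ) (a b : Γ) : Prop :=
  ‖ψ (c1 b)‖ = 1 ∧ ψ (c2 a b) = ψ none * ψ (c1 b) * conj (ψ (c1 a)) - ψ none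

structure D (ψ : Ix Γ → ℂ) : Prop where
  h0 : ‖ψ none‖ = 1
  h1 : ∀ a, ‖ψ (c1 a)‖ = 1 ∨ ∃ ν ∈ L, ψ (c1 a) = ν * ψ none
  h2 : ∀ a b, ψ (c2 b a) = - ψ (c2 a b)
  h3 : ∀ a b, a ≠ b → P ψ a b ∨ P ψ b a

def BB (Γ : Type) : Set (Ix Γ → ℂ) := closure (convexHull ℝ {ψ | D ψ})

theorem Lb {ν : ℂ} (h : ν ∈ L) : 2 ≤ ‖ν‖ ∧ ‖ν‖ ≤ 3 := by
  rcases h with rfl | rfl | rfl | rfl <;> simp <;> norm_num

theorem mc {c : ℂ} (h : ‖c‖ = 1) : c * conj c = 1 := by
  rw [Complex.mul_conj, Complex.normSq_eq_norm_sq, h]; simp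

theorem Lx {ν : ℂ} (h : ν ∈ L) : ∃ (β : ℂ) (m : ℝ), ‖β‖ = 1 ∧ 4 ≤ m ∧ 2 + β * ν = m ∧
    ∀ ν' ∈ L, ν' ≠ ν → ‖2 + β * ν'‖ ≤ 11 / 3 := by
  have key : ∀ z : ℂ, z.re ^ 2 + z.im ^ 2 ≤ 13 → ‖z‖ ≤ 11 / 3 := by
    intro z hz
    have h1 : ‖z‖ ^ 2 = z.re ^ 2 + z.im ^ 2 := by
      rw [← Complex.normSq_eq_norm_sq, Complex.normSq_apply]; ring
    nlinarith [norm_nonneg z]
  rcases h with rfl | rfl | rfl | rfl
  · refine ⟨1, 4, by simp, le_rfl, by norm_num, ?_⟩
    rintro _ (rfl | rfl | rfl | rfl) hne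
    · exact absurd rfl hne
    all_goals (apply key; simp; try norm_num)
  · refine ⟨-1, 4, by simp, le_rfl, by norm_num, ?_⟩
    rintro _ (rfl | rfl | rfl | rfl) hne
    · apply key; simp
    · exact absurd rfl hne
    all_goals (apply key; simp; try norm_num)
  · refine ⟨-Complex.I, 5, by simp, by norm_num, ?_, ?_⟩
    · apply Complex.ext <;> simp; norm_num
    rintro _ (rfl | rfl | rfl | rfl) hne
    · apply key; simp; norm_num
    · apply key; simp; norm_num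
    · exact absurd rfl hne
    · apply key; simp; norm_num
  · refine ⟨Complex.I, 5, by simp, by norm_num, ?_, ?_⟩
    · apply Complex.ext <;> simp; norm_num
    rintro _ (rfl | rfl | rfl | rfl) hne
    · apply key; simp; norm_num
    · apply key; simp; norm_num
    · apply key; simp; norm_num
    · exact absurd rfl hne

theorem D.b1 {ψ : Ix Γ → ℂ} (h : D ψ) (a : Γ) : ‖ψ (c1 a)‖ ≤ 3 := by
  rcases h.h1 a with h1 | ⟨ν, hν, h1⟩
  · rw [h1]; norm_num
  · rw [h1, norm_mul, h.h0, mul_one]; exact (Lb hν).2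

theorem D.bd {ψ : Ix Γ → ℂ} (h : D ψ) (i : Ix Γ) : ‖ψ i‖ ≤ 4 := by
  have hp : ∀ a b, P ψ a b → ‖ψ (c2 a b)‖ ≤ 4 := by
    intro a b hab
    rw [hab.2]
    refine (norm_sub_le _ _).trans ?_
    rw [norm_mul, norm_mul, h.h0, hab.1, Complex.norm_conj]
    linarith [h.b1 a]
  rcases i with _ | a | ⟨a, b⟩
  · rw [h.h0]; norm_num
  · linarith [h.b1 a]
  · by_cases hab : a = b
    · subst hab
      have := h.h2 a a
      have h0 : ψ (c2 a a) = 0 := by linear_combination this / 2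
      rw [h0]; simp
    · rcases h.h3 a b hab with h1 | h1
      · exact hp a b h1
      · rw [h.h2 b a, norm_neg]; exact hp b a h1

theorem sub {S : Set (Ix Γ → ℂ)} (hc : IsClosed S) (hv : Convex ℝ S) (hD : ∀ ψ, D ψ → ψ ∈ S) :
    BB Γ ⊆ S := closure_minimal (convexHull_min hD hv) hc

theorem D.mem {ψ : Ix Γ → ℂ} (h : D ψ) : ψ ∈ BB Γ := subset_closure (subset_convexHull ℝ _ h)

theorem cvx : Convex ℝ (BB Γ) := (convex_convexHull ℝ _).closure

theorem cpt : IsCompact (BB Γ) := by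
  have h1 : IsCompact (Set.pi univ fun _ : Ix Γ => Metric.closedBall (0 : ℂ) 4) :=
    isCompact_univ_pi fun _ => isCompact_closedBall _ _
  refine h1.of_isClosed_subset isClosed_closure (sub h1.isClosed ?_ ?_)
  · exact convex_pi fun _ _ => convex_closedBall _ _
  · intro ψ h i _
    simpa using h.bd i

theorem D.rot {ψ : Ix Γ → ℂ} (h : D ψ) {μ : ℂ} (hμ : ‖μ‖ = 1) : D (μ • ψ) := by
  have hp : ∀ a b, P ψ a b → P (μ • ψ) a b := by
    intro a b hab
    refine ⟨by simp [hμ, hab.1], ?_⟩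
    simp only [Pi.smul_apply, smul_eq_mul, map_mul, hab.2]
    linear_combination (-(μ * ψ none * ψ (c1 b) * conj (ψ (c1 a)))) * mc hμ
  refine ⟨by simp [hμ, h.h0], fun a => ?_, fun a b => by simp [h.h2 a b],
    fun a b hab => (h.h3 a b hab).imp (hp a b) (hp b a)⟩
  rcases h.h1 a with h1 | ⟨ν, hν, h1⟩
  · left; simp [hμ, h1]
  · right; exact ⟨ν, hν, by simp [h1]; ring⟩

theorem rot {ψ : Ix Γ → ℂ} (h : ψ ∈ BB Γ) {μ : ℂ} (hμ : ‖μ‖ = 1) : μ • ψ ∈ BB Γ := by
  refine sub (S := (fun x => μ • x) ⁻¹' BB Γ) (isClosed_closure.preimage (by fun_prop)) ?_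
    (fun ψ h => (h.rot hμ).mem) h
  intro x hx y hy a b ha hb hab
  have := cvx hx hy ha hb hab
  simpa only [mem_preimage, smul_add, smul_comm μ] using this

theorem anti {ψ : Ix Γ → ℂ} (h : ψ ∈ BB Γ) (a b : Γ) : ψ (c2 b a) = - ψ (c2 a b) := by
  refine sub (S := {ψ | ψ (c2 b a) = - ψ (c2 a b)}) (isClosed_eq (by fun_prop) (by fun_prop)) ?_
    (fun ψ h => h.h2 a b) h
  intro x hx y hy s t _ _ _
  simp only [mem_ofPred_eq, Pi.add_apply, Pi.smul_apply] at hx hy ⊢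
  rw [hx, hy]; simp; ring

theorem rig {ψ : Ix Γ → ℂ} (h : ψ ∈ BB Γ) {ν : ℂ} (hν : ν ∈ L) {γ δ : Γ} (hne : γ ≠ δ)
    (h0 : ψ none = 1) (h1 : ψ (c1 γ) = ν) : ψ (c2 γ δ) = conj ν * ψ (c1 δ) - 1 := by
  obtain ⟨β, m, hβ, hm, hmν, hL⟩ := Lx hν
  have key := sub (S := {ψ : Ix Γ → ℂ | ‖ψ (c2 γ δ) - conj ν * ψ (c1 δ) + ψ none‖ ≤
      51 * (m - (2 * ψ none + β * ψ (c1 γ)).re)}) (isClosed_le (by fun_prop) (by fun_prop)) ?_ ?_ h
  · rw [mem_ofPred_eq, h0, h1, mul_one, hmν, Complex.ofReal_re, sub_self, mul_zero,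
      norm_le_zero_iff] at key
    linear_combination key
  · intro x hx y hy s t hs ht hst
    simp only [mem_ofPred_eq, Pi.add_apply, Pi.smul_apply, Complex.real_smul] at hx hy ⊢
    have e1 : s * x (c2 γ δ) + t * y (c2 γ δ) - conj ν * (s * x (c1 δ) + t * y (c1 δ)) +
        (s * x none + t * y none) = s * (x (c2 γ δ) - conj ν * x (c1 δ) + x none) +
        t * (y (c2 γ δ) - conj ν * y (c1 δ) + y none) := by ring
    have e2 : 2 * (s * x none + t * y none) + β * (s * x (c1 γ) + t * y (c1 γ)) =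
        s * (2 * x none + β * x (c1 γ)) + t * (2 * y none + β * y (c1 γ)) := by ring
    rw [e1, e2, Complex.add_re, Complex.re_ofReal_mul, Complex.re_ofReal_mul]
    refine (norm_add_le _ _).trans ?_
    rw [norm_mul, norm_mul, Complex.norm_real, Complex.norm_real, Real.norm_of_nonneg hs,
      Real.norm_of_nonneg ht]
    have := add_le_add (mul_le_mul_of_nonneg_left hx hs) (mul_le_mul_of_nonneg_left hy ht)
    have hm' : m = s * m + t * m := by rw [← add_mul, hst, one_mul]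
    nlinarith
  · intro x hx
    rw [mem_ofPred_eq]
    have hre := Complex.re_le_norm (2 * x none + β * x (c1 γ))
    by_cases hs : x (c1 γ) = ν * x none
    · have hP : P x γ δ := by
        refine (hx.h3 γ δ hne).resolve_right fun hP => ?_
        have := hP.1
        rw [hs, norm_mul, hx.h0] at this
        linarith [(Lb hν).1]
      have e1 : x (c2 γ δ) - conj ν * x (c1 δ) + x none = 0 := by
        rw [hP.2, hs, map_mul]
        linear_combination (conj ν * x (c1 δ)) * mc hx.h0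
      have e2 : 2 * x none + β * x (c1 γ) = m * x none := by rw [hs, ← hmν]; ring
      rw [e2, norm_mul, hx.h0, Complex.norm_real, Real.norm_of_nonneg (by linarith)] at hre
      rw [e1, e2, norm_zero]
      linarith
    · have e2 : ‖2 * x none + β * x (c1 γ)‖ ≤ 11 / 3 := by
        rcases hx.h1 γ with h2 | ⟨ν', hν', h2⟩
        · refine (norm_add_le _ _).trans ?_
          rw [norm_mul, norm_mul, hx.h0, hβ, h2]; norm_num
        · have : 2 * x none + β * x (c1 γ) = (2 + β * ν') * x none := by rw [h2]; ring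
          rw [this, norm_mul, hx.h0, mul_one]
          exact hL ν' hν' fun h3 => hs (h3 ▸ h2)
      have e1 : ‖x (c2 γ δ) - conj ν * x (c1 δ) + x none‖ ≤ 17 := by
        refine (norm_add_le _ _).trans ?_
        have := norm_sub_le (x (c2 γ δ)) (conj ν * x (c1 δ))
        rw [norm_mul, Complex.norm_conj] at this
        have h5 := mul_le_mul (Lb hν).2 (hx.bd (c1 δ)) (norm_nonneg _) (by norm_num)
        linarith [hx.bd (c2 γ δ), hx.h0]
      linarith

open Classical in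
noncomputable def p1 (A : Finset Γ) (ψ : Ix Γ → ℂ) (a : Γ) : ℂ :=
  if a ∈ A then ψ (c1 a) else conj (ψ none)

open Classical in
noncomputable def pA (A : Finset Γ) (ψ : Ix Γ → ℂ) : Ix Γ → ℂ
  | none => ψ none
  | some (Sum.inl a) => p1 A ψ a
  | some (Sum.inr (a, b)) =>
      if a ∈ A ∧ b ∈ A then ψ (c2 a b) else conj (p1 A ψ a) - conj (p1 A ψ b)

theorem D.pA {ψ : Ix Γ → ℂ} (h : D ψ) (A : Finset Γ) : D (pA A ψ) := by
  have hp : ∀ a b, b ∉ A → P (MP_54c5a6.pA A ψ) a b := by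
    intro a b hb
    refine ⟨by simp [MP_54c5a6.pA, p1, hb, h.h0], ?_⟩
    have e : p1 A ψ b = conj (ψ none) := if_neg hb
    simp only [MP_54c5a6.pA, hb, and_false, if_false, e, Complex.conj_conj]
    linear_combination (-conj (p1 A ψ a)) * mc h.h0
  refine ⟨h.h0, fun a => ?_, fun a b => ?_, fun a b hab => ?_⟩
  · by_cases ha : a ∈ A
    · simpa [MP_54c5a6.pA, p1, ha] using h.h1 a
    · left; simp [MP_54c5a6.pA, p1, ha, h.h0]
  · by_cases ha : a ∈ A <;> by_cases hb : b ∈ A <;> simp [MP_54c5a6.pA, ha, hb, h.h2 a b]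
  · by_cases ha : a ∈ A
    · by_cases hb : b ∈ A
      · simpa [P, MP_54c5a6.pA, p1, ha, hb] using h.h3 a b hab
      · exact Or.inl (hp a b hb)
    · exact Or.inr (hp b a ha)

theorem pA_lim (ψ : Ix Γ → ℂ) : Tendsto (fun A : Finset Γ => pA A ψ) atTop (𝓝 ψ) := by
  classical
  refine tendsto_pi_nhds.2 fun i => ?_
  rcases i with _ | a | ⟨a, b⟩
  · exact tendsto_const_nhds
  · refine tendsto_const_nhds.congr' ?_
    filter_upwards [eventually_ge_atTop {a}] with A hA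
    simp [pA, p1, hA (Finset.mem_singleton_self a)]
  · refine tendsto_const_nhds.congr' ?_
    filter_upwards [eventually_ge_atTop {a, b}] with A hA
    have ha : a ∈ A := hA (by simp)
    have hb : b ∈ A := hA (by simp)
    simp [pA, ha, hb]

end Pool.Agent.H.MP_54c5a6
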