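import Pool.Agent.H.MP_54c5a6.A

set_option autoImplicit false
open Set Filter Topology ComplexConjugate

namespace Pool.Agent.H.MP_54c5a6

variable {Γ : Type}

def mk (c : ℂ) (f : Γ → ℂ) (g : Γ → Γ → ℂ) : Ix Γ → ℂ
  | none => c
  | some (Sum.inl a) => f a
  | some (Sum.inr (a, b)) => g a b

def e0 (Γ : Type) : Ix Γ → ℂ := mk 1 (fun _ => 0) fun _ _ => 0
def VV (Γ : Type) : Ix Γ → ℂ := mk 0 (fun _ => 1) fun _ _ => 0
open Classical in
noncomputable def vv (η : Γ) : Ix Γ → ℂ := mk 0 (fun a => if a = η then 1 else 0) fun _ _ => 0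
open Classical in
noncomputable def JJ (η : Γ) : Ix Γ → ℂ :=
  mk 0 (fun _ => 0) fun a b => (if a = η then 1 else 0) - (if b = η then 1 else 0)
open Classical in
noncomputable def jj (η η' : Γ) : Ix Γ → ℂ :=
  mk 0 (fun _ => 0) fun a b => (if a = η ∧ b = η' then 1 else 0) - (if b = η ∧ a = η' then 1 else 0)

theorem T0 : D (e0 Γ + VV Γ) := by
  refine ⟨by simp [e0, VV, mk], fun a => by simp [e0, VV, mk], fun a b => by simp [e0, VV, mk],
    fun a b _ => Or.inl ?_⟩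
  simp [P, e0, VV, mk]

theorem T1 {ν k : ℂ} (hν : ν ∈ L) (hk : k = 1 ∨ k = -1) (ε : Γ) :
    D (e0 Γ + k • VV Γ + (ν - k) • vv ε + (conj ν * k - 1) • JJ ε) := by
  classical
  have hk1 : ‖k‖ = 1 := by rcases hk with rfl | rfl <;> simp
  have hk2 : k * conj k = 1 := mc hk1
  refine ⟨by simp [e0, VV, vv, JJ, mk], fun a => ?_, fun a b => ?_, fun a b hab => ?_⟩
  · by_cases ha : a = ε
    · right; exact ⟨ν, hν, by simp [e0, VV, vv, JJ, mk, ha]⟩
    · left; simp [e0, VV, vv, JJ, mk, ha, hk1]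
  · simp [e0, VV, vv, JJ, mk]; ring
  · by_cases ha : a = ε
    · subst ha
      left
      simp [P, e0, VV, vv, JJ, mk, hab.symm, hk1, mul_comm]
    · by_cases hb : b = ε
      · subst hb
        right
        simp [P, e0, VV, vv, JJ, mk, hab, hk1, mul_comm]
      · left
        simp [P, e0, VV, vv, JJ, mk, ha, hb, hk1, hk2]

open Classical in
theorem T2 {ν : ℂ} (hν : ν ∈ L) {γ η : Γ} (hne : γ ≠ η) (s : Γ → ℂ)
    (hs : ∀ b, s b = 2 ∨ s b = -2) :
    D (mk 1 (fun a => if a = γ then ν else if a = η then -1 else 1) fun a b =>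
      if a = b then 0 else if a = γ then (if b = η then -conj ν - 1 else conj ν - 1)
      else if b = γ then -(if a = η then -conj ν - 1 else conj ν - 1)
      else if a = η then s b else if b = η then - s a else 0) := by
  have hne' := hne.symm
  refine ⟨by simp [mk], fun a => ?_, fun a b => ?_, fun a b hab => ?_⟩
  · by_cases ha : a = γ
    · right; exact ⟨ν, hν, by simp [mk, ha]⟩
    · left
      by_cases ha' : a = η <;> simp [mk, ha, ha', hne']
  · by_cases hab : a = b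
    · simp [mk, hab]
    · have hba : ¬ b = a := fun h => hab h.symm
      by_cases h1 : a = γ <;> by_cases h2 : b = γ <;> by_cases h3 : a = η <;>
        by_cases h4 : b = η <;> simp_all [mk] <;> ring
  · have hba : ¬ b = a := fun h => hab h.symm
    by_cases h1 : a = γ
    · left
      by_cases h4 : b = η <;> simp_all [P, mk]
    · by_cases h2 : b = γ
      · right
        by_cases h3 : a = η <;> simp_all [P, mk]
      · by_cases h3 : a = η
        · rcases hs b with h5 | h5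
          · right; simp_all [P, mk]; norm_num
          · left; simp_all [P, mk]; norm_num
        · by_cases h4 : b = η
          · rcases hs a with h5 | h5
            · left; simp_all [P, mk]; norm_num
            · right; simp_all [P, mk]; norm_num
          · left; simp_all [P, mk]

theorem T3 {ν : ℂ} (hν : ν ∈ L) {γ η : Γ} (hne : γ ≠ η) {s : ℂ} (hs : s = 2 ∨ s = -2) :
    D (e0 Γ + VV Γ + (ν - 1) • vv γ - (2 : ℂ) • vv η + (conj ν - 1) • JJ γ
      - (2 * conj ν) • jj γ η + s • (JJ η + jj γ η)) := by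
  classical
  have hne' := hne.symm
  convert T2 hν hne (fun _ => s) (fun _ => hs) using 1
  funext i
  rcases i with _ | a | ⟨a, b⟩
  · simp [e0, VV, vv, JJ, jj, mk]
  · by_cases h1 : a = γ <;> by_cases h3 : a = η <;> simp_all [e0, VV, vv, JJ, jj, mk]; norm_num
  · by_cases hab : a = b
    · simp [e0, VV, vv, JJ, jj, mk, hab]
    · by_cases h1 : a = γ <;> by_cases h2 : b = γ <;> by_cases h3 : a = η <;>
        by_cases h4 : b = η <;> simp_all [e0, VV, vv, JJ, jj, mk] <;> ring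

theorem T4 {ν : ℂ} (hν : ν ∈ L) {γ η c : Γ} (hne : γ ≠ η) (h1c : γ ≠ c) (h2c : η ≠ c) :
    D (e0 Γ + VV Γ + (ν - 1) • vv γ - (2 : ℂ) • vv η + (conj ν - 1) • JJ γ
      - (2 * conj ν) • jj γ η + (-2 : ℂ) • (JJ η + jj γ η) + (4 : ℂ) • jj η c) := by
  classical
  have hne' := hne.symm
  have h1c' := h1c.symm
  have h2c' := h2c.symm
  convert T2 hν hne (fun b => if b = c then 2 else -2) (fun b => by
    by_cases h : b = c <;> simp [h]) using 1
  funext i
  rcases i with _ | a | ⟨a, b⟩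
  · simp [e0, VV, vv, JJ, jj, mk]
  · by_cases h1 : a = γ <;> by_cases h3 : a = η <;> simp_all [e0, VV, vv, JJ, jj, mk]; norm_num
  · by_cases hab : a = b
    · simp [e0, VV, vv, JJ, jj, mk, hab]
    · by_cases h1 : a = γ <;> by_cases h2 : b = γ <;> by_cases h3 : a = η <;>
        by_cases h4 : b = η <;> by_cases h5 : a = c <;> by_cases h6 : b = c <;>
        simp_all [e0, VV, vv, JJ, jj, mk] <;> ring

theorem pA_eq {ψ : Ix Γ → ℂ} (h : D ψ) (A : Finset Γ) : pA A ψ =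
    ψ none • e0 Γ + conj (ψ none) • VV Γ + ∑ η ∈ A, (ψ (c1 η) - conj (ψ none)) • vv η +
      ∑ η ∈ A, (conj (ψ (c1 η)) - ψ none) • JJ η +
      ∑ η ∈ A, ∑ η' ∈ A, ((ψ (c2 η η') - (conj (ψ (c1 η)) - conj (ψ (c1 η')))) / 2) • jj η η' := by
  classical
  funext i
  rcases i with _ | a | ⟨a, b⟩
  · simp [pA, e0, VV, vv, JJ, jj, mk]
  · by_cases ha : a ∈ A <;> simp [pA, p1, e0, VV, vv, JJ, jj, mk, ha]
  · simp only [pA, p1, e0, VV, vv, JJ, jj, mk, Pi.add_apply, Pi.smul_apply, Finset.sum_apply,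
      smul_eq_mul, mul_zero, Finset.sum_const_zero, zero_add, mul_sub, Finset.sum_sub_distrib,
      ite_and, mul_ite, mul_one, Finset.sum_ite_eq, Finset.sum_ite_irrel]
    by_cases ha : a ∈ A <;> by_cases hb : b ∈ A <;> simp [ha, hb, h.h2 a b]
    ring

theorem Lm : (2 : ℂ) ∈ L ∧ (-2 : ℂ) ∈ L ∧ 3 * Complex.I ∈ L ∧ -(3 * Complex.I) ∈ L := by
  simp [L]

theorem zz (F : (Ix Γ → ℂ) →ₗ[ℂ] ℂ) (hc : ContinuousOn F (BB Γ)) (h1 : ∀ a, F (vv a) = 0)
    (h2 : ∀ a, F (JJ a) = 0) (h3 : ∀ a b, F (jj a b) = 0) {ψ : Ix Γ → ℂ} (h : D ψ) :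
    F ψ = ψ none * F (e0 Γ) + conj (ψ none) * F (VV Γ) := by
  have ht : Tendsto (fun A : Finset Γ => F (pA A ψ)) atTop (𝓝 (F ψ)) :=
    (hc ψ h.mem).tendsto.comp (tendsto_nhdsWithin_iff.2 ⟨pA_lim ψ,
      Eventually.of_forall fun A => (h.pA A).mem⟩)
  refine tendsto_nhds_unique ht (tendsto_const_nhds.congr fun A => ?_)
  rw [pA_eq h]
  simp [map_sum, h1, h2, h3]

theorem alg (M : Set Γ) (hM : M.Infinite) (R : (Ix Γ → ℂ) →ₗ[ℂ] (Ix Γ → ℂ))
    (hB : ∀ ψ ∈ BB Γ, R ψ ∈ BB Γ) (hc : ContinuousOn R (BB Γ))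
    (hk : ∀ x, x none = 0 → (∀ a ∈ M, x (c1 a) = 0) → (∀ a ∈ M, ∀ b ∈ M, x (c2 a b) = 0) → R x = 0)
    (h0 : ∀ ψ ∈ BB Γ, R ψ none = ψ none) (h1 : ∀ ψ ∈ BB Γ, ∀ a ∈ M, R ψ (c1 a) = ψ (c1 a))
    {γ δ : Γ} (hγ : γ ∈ M) (hδ : δ ∉ M) : ∀ ψ ∈ BB Γ, R ψ (c2 γ δ) = - ψ none := by
  classical
  let G : (Ix Γ → ℂ) →ₗ[ℂ] ℂ := (LinearMap.proj (c1 δ)).comp R
  let H : Γ → (Ix Γ → ℂ) →ₗ[ℂ] ℂ := fun ε => (LinearMap.proj (c2 ε δ)).comp R
  have hGc : ContinuousOn G (BB Γ) := (continuous_apply (c1 δ)).comp_continuousOn hc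
  have hHc : ContinuousOn (H γ) (BB Γ) := (continuous_apply (c2 γ δ)).comp_continuousOn hc
  have seed : ∀ ε ∈ M, ∀ ν ∈ L, ∀ ψ, D ψ → ψ none = 1 → ψ (c1 ε) = ν →
      H ε ψ = conj ν * G ψ - 1 := fun ε hε ν hν ψ h a0 a1 =>
    rig (hB ψ h.mem) hν (fun e => hδ (e ▸ hε)) ((h0 ψ h.mem).trans a0)
      ((h1 ψ h.mem ε hε).trans a1)
  have kv : ∀ a, a ∉ M → R (vv a) = 0 := fun a ha =>
    hk _ rfl (fun b hb => if_neg fun e : b = a => ha (e ▸ hb)) fun _ _ _ _ => rfl
  have kJ : ∀ a, a ∉ M → R (JJ a) = 0 := fun a ha =>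
    hk _ rfl (fun _ _ => rfl) fun b hb c hc => by
      have e1 : b ≠ a := fun e => ha (e ▸ hb)
      have e2 : c ≠ a := fun e => ha (e ▸ hc)
      simp [JJ, mk, e1, e2]
  have kj : ∀ a a', (a ∉ M ∨ a' ∉ M) → R (jj a a') = 0 := fun a a' ha =>
    hk _ rfl (fun _ _ => rfl) fun b hb c hc => by
      rcases ha with ha | ha
      · have e1 : b ≠ a := fun e => ha (e ▸ hb)
        have e2 : c ≠ a := fun e => ha (e ▸ hc)
        simp [jj, mk, e1, e2]
      · have e1 : b ≠ a' := fun e => ha (e ▸ hb)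
        have e2 : c ≠ a' := fun e => ha (e ▸ hc)
        simp [jj, mk, e1, e2]
  have jd : ∀ a : Γ, jj a a = 0 := fun a => by
    funext i
    rcases i with _ | b | ⟨b, c⟩ <;> simp [jj, mk, and_comm]
  have js : ∀ a b : Γ, jj b a = - jj a b := fun a b => by
    funext i
    rcases i with _ | c | ⟨c, d⟩ <;> simp [jj, mk, and_comm]
  obtain ⟨l1, l2, l3, l4⟩ := Lm
  have s1 : ∀ ε ∈ M, ∀ ν ∈ L, ∀ k : ℂ, (k = 1 ∨ k = -1) →
      H ε (e0 Γ) + k * H ε (VV Γ) + (ν - k) * H ε (vv ε) + (conj ν * k - 1) * H ε (JJ ε) =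
      conj ν * (G (e0 Γ) + k * G (VV Γ) + (ν - k) * G (vv ε) + (conj ν * k - 1) * G (JJ ε)) - 1 := by
    intro ε hε ν hν k hk
    have := seed ε hε ν hν _ (T1 hν hk ε) (by simp [e0, VV, vv, JJ, mk])
      (by simp [e0, VV, vv, JJ, mk])
    simpa only [map_add, map_smul, smul_eq_mul] using this
  have s2 : ∀ ε ∈ M, G (vv ε) = 0 ∧ G (JJ ε) = 0 ∧ G (e0 Γ) = 0 ∧ H ε (VV Γ) = 0 ∧
      H ε (vv ε) = 0 ∧ H ε (JJ ε) = G (VV Γ) ∧ H ε (e0 Γ) = G (VV Γ) - 1 := by
    intro ε hε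
    have a1 := s1 ε hε _ l1 1 (Or.inl rfl)
    have a2 := s1 ε hε _ l1 (-1) (Or.inr rfl)
    have a3 := s1 ε hε _ l2 1 (Or.inl rfl)
    have a4 := s1 ε hε _ l2 (-1) (Or.inr rfl)
    have a5 := s1 ε hε _ l3 1 (Or.inl rfl)
    have a6 := s1 ε hε _ l3 (-1) (Or.inr rfl)
    have a7 := s1 ε hε _ l4 1 (Or.inl rfl)
    have a8 := s1 ε hε _ l4 (-1) (Or.inr rfl)
    simp only [map_neg, map_mul, map_ofNat, Complex.conj_I] at a1 a2 a3 a4 a5 a6 a7 a8
    have hI := Complex.I_mul_I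
    generalize H ε (e0 Γ) = x0, H ε (VV Γ) = x1, H ε (vv ε) = x2, H ε (JJ ε) = x3, G (e0 Γ) = y0,
      G (VV Γ) = y1, G (vv ε) = y2, G (JJ ε) = y3 at *
    have b1 : x2 = y0 - y3 := by linear_combination (a1 + a2 - a3 - a4) / 8
    have b2 : x2 = -(y0 - y3) := by
      linear_combination (-Complex.I) * (a5 + a6 - a7 - a8) / 12 + (x2 + y0 - y3) * hI
    have b3 : x0 - x3 + 1 = 4 * y2 := by linear_combination (a1 + a2 + a3 + a4) / 4
    have b4 : x0 - x3 + 1 = 9 * y2 := by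
      linear_combination (a5 + a6 + a7 + a8) / 4 - 9 * y2 * hI
    have b5 : x1 - x2 = 4 * y3 := by linear_combination (a1 - a2 + a3 - a4) / 4
    have b6 : x1 - x2 = -9 * y3 := by
      linear_combination (a5 - a6 + a7 - a8) / 4 + 9 * y3 * hI
    have b7 : x3 = y1 - y2 := by linear_combination (a1 - a2 - a3 + a4) / 8
    have c1 : y2 = 0 := by linear_combination (b3 - b4) / 5
    have c2 : y3 = 0 := by linear_combination (b6 - b5) / 13
    have c3 : x2 = 0 := by linear_combination (b1 + b2) / 2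
    refine ⟨c1, c2, by linear_combination c3 - b1 + c2, by linear_combination b5 + c3 + 4 * c2, c3,
      by linear_combination b7 - c1, by linear_combination b3 + b7 + 3 * c1⟩
  have s3 : ∀ ε ∈ M, ∀ a b, ε ≠ a → ε ≠ b → a ≠ b → H ε (jj a b) = 0 ∧ G (jj a b) = 0 := by
    intro ε hε a b ha hb hab
    have t : ∀ ν ∈ L, H ε (jj a b) = conj ν * G (jj a b) := by
      intro ν hν
      have a1 := seed ε hε ν hν _ (T3 hν ha (Or.inr rfl)) (by simp [e0, VV, vv, JJ, jj, mk])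
        (by simp [e0, VV, vv, JJ, jj, mk, ha])
      have a2 := seed ε hε ν hν _ (T4 hν ha hb hab) (by simp [e0, VV, vv, JJ, jj, mk])
        (by simp [e0, VV, vv, JJ, jj, mk, ha])
      rw [map_add _ _ ((4 : ℂ) • jj a b), map_add _ _ ((4 : ℂ) • jj a b), a1, map_smul, map_smul,
        smul_eq_mul, smul_eq_mul] at a2
      linear_combination a2 / 4
    have a1 := t _ l1
    have a2 := t _ l2
    simp only [map_neg, map_ofNat] at a1 a2
    exact ⟨by linear_combination (a1 + a2) / 2, by linear_combination (a2 - a1) / 4⟩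
  have gv : ∀ a, G (vv a) = 0 := fun a => by
    by_cases ha : a ∈ M
    · exact (s2 a ha).1
    · simp [G, kv a ha]
  have gJ : ∀ a, G (JJ a) = 0 := fun a => by
    by_cases ha : a ∈ M
    · exact (s2 a ha).2.1
    · simp [G, kJ a ha]
  have gj : ∀ a b, G (jj a b) = 0 := fun a b => by
    by_cases hab : a = b
    · rw [hab, jd, map_zero]
    · obtain ⟨ε, hε, hn⟩ := hM.exists_notMem_finset {a, b}
      simp only [Finset.mem_insert, Finset.mem_singleton, not_or] at hn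
      exact (s3 ε hε a b hn.1 hn.2 hab).2
  obtain ⟨-, -, g0, hV, hv, hJ, he⟩ := s2 γ hγ
  have gV : G (VV Γ) = 0 := by
    have := zz G hGc gv gJ gj (T0.rot (μ := Complex.I) (by simp))
    simp only [map_smul, map_add, Pi.smul_apply, Pi.add_apply, e0, VV, mk, smul_eq_mul,
      add_zero, mul_one, Complex.conj_I] at this
    have hI := Complex.I_mul_I
    change Complex.I * (G (e0 Γ) + G (VV Γ)) = Complex.I * G (e0 Γ) + -Complex.I * G (VV Γ) at this
    rw [g0] at this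
    linear_combination (-Complex.I) * this / 2 + G (VV Γ) * hI
  rw [gV] at hJ he
  have s4 : ∀ η, γ ≠ η → H γ (vv η) = 0 ∧ H γ (JJ η) = 0 ∧ H γ (jj γ η) = 0 := by
    intro η hη
    have t : ∀ ν ∈ L, ∀ s : ℂ, (s = 2 ∨ s = -2) → -2 * H γ (vv η) - 2 * conj ν * H γ (jj γ η) +
        s * (H γ (JJ η) + H γ (jj γ η)) = 0 := by
      intro ν hν s hs
      have a1 := seed γ hγ ν hν _ (T3 hν hη hs) (by simp [e0, VV, vv, JJ, jj, mk])
        (by simp [e0, VV, vv, JJ, jj, mk, hη])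
      simp only [map_add, map_sub, map_smul, smul_eq_mul, g0, gV, gv, gJ, gj, hV, hv, hJ, he] at a1
      linear_combination a1
    have a1 := t _ l1 2 (Or.inl rfl)
    have a2 := t _ l2 2 (Or.inl rfl)
    have a3 := t _ l1 (-2) (Or.inr rfl)
    simp only [map_neg, map_ofNat] at a1 a2 a3
    have b1 : H γ (jj γ η) = 0 := by linear_combination (a2 - a1) / 8
    have b2 : H γ (JJ η) = 0 := by linear_combination (a1 - a3) / 4 - b1
    exact ⟨by linear_combination -a1 / 2 - b1 + b2, b2, b1⟩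
  have z := fun ψ => zz (H γ) hHc (fun a => by
      by_cases ha : γ = a
      · rw [← ha, hv]
      · exact (s4 a ha).1) (fun a => by
      by_cases ha : γ = a
      · rw [← ha, hJ]
      · exact (s4 a ha).2.1) (fun a b => by
      by_cases hab : a = b
      · rw [hab, jd, map_zero]
      · by_cases ha : γ = a
        · subst ha; exact (s4 b hab).2.2
        · by_cases hb : γ = b
          · subst hb; rw [js, map_neg, (s4 a ha).2.2, neg_zero]
          · exact (s3 γ hγ a b ha hb hab).1) (ψ := ψ)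
  intro ψ hψ
  have hcl : IsClosed (BB Γ ∩ (fun x => H γ x + x none) ⁻¹' {0}) :=
    (hHc.add (continuous_apply none).continuousOn).preimage_isClosed_of_isClosed
      isClosed_closure isClosed_singleton
  have := sub hcl (cvx.inter ?_) (fun x hx => ⟨hx.mem, ?_⟩) hψ
  · have h2 : H γ ψ + ψ none = 0 := this.2
    exact eq_neg_of_add_eq_zero_left h2
  · intro x hx y hy s t _ _ _
    have hx' : H γ x + x none = 0 := hx
    have hy' : H γ y + y none = 0 := hy
    change H γ ((s : ℂ) • x + (t : ℂ) • y) + (s * x none + t * y none) = 0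
    rw [map_add, map_smul, map_smul, smul_eq_mul, smul_eq_mul]
    linear_combination s * hx' + t * hy'
  · change H γ x + x none = 0
    rw [z x hx, he, hV]; ring

end Pool.Agent.H.MP_54c5a6
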