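import Pool.Agent.H.MP_54c5a6.B

set_option autoImplicit false
open Set Filter Topology ComplexConjugate

namespace Pool.Agent.H.MP_54c5a6

variable {Γ : Type}

theorem dep {ι : Type} {B : Set (ι → ℂ)} (hB : IsCompact B) (f : (ι → ℂ) → ℝ)
    (hf : ContinuousOn f B) : ∃ s : Set ι, s.Countable ∧
      ∀ x ∈ B, ∀ y ∈ B, (∀ i ∈ s, x i = y i) → f x = f y := by
  have h1 : ∀ n : ℕ, ∃ u : Finset ι, ∀ x ∈ B, ∀ y ∈ B, (∀ i ∈ u, x i = y i) →
      |f x - f y| < 1 / ((n : ℝ) + 1) := by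
    intro n
    have hc : ContinuousOn (fun p : (ι → ℂ) × (ι → ℂ) => |f p.1 - f p.2|) (B ×ˢ B) :=
      ((hf.comp continuousOn_fst fun p hp => hp.1).sub
        (hf.comp continuousOn_snd fun p hp => hp.2)).abs
    have hK : IsCompact (B ×ˢ B ∩ (fun p : (ι → ℂ) × (ι → ℂ) => |f p.1 - f p.2|) ⁻¹'
        Ici (1 / ((n : ℝ) + 1))) :=
      (hB.prod hB).of_isClosed_subset
        (hc.preimage_isClosed_of_isClosed (hB.prod hB).isClosed isClosed_Ici) inter_subset_left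
    obtain ⟨u, hu⟩ := hK.elim_finite_subfamily_closed (fun i => {p | p.1 i = p.2 i})
      (fun i => isClosed_eq (by fun_prop) (by fun_prop)) (by
        refine eq_empty_of_forall_notMem fun p hp => ?_
        have e : p.1 = p.2 := funext fun i => mem_iInter.1 hp.2 i
        have h2 : 1 / ((n : ℝ) + 1) ≤ |f p.1 - f p.2| := hp.1.2
        rw [e, sub_self, abs_zero] at h2
        exact absurd h2 (not_le.2 Nat.one_div_pos_of_nat))
    refine ⟨u, fun x hx y hy hxy => ?_⟩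
    by_contra hn
    exact (eq_empty_iff_forall_notMem.1 hu (x, y))
      ⟨⟨⟨hx, hy⟩, not_lt.1 hn⟩, mem_iInter₂.2 hxy⟩
  choose u hu using h1
  refine ⟨⋃ n, u n, countable_iUnion fun n => (u n).countable_toSet, fun x hx y hy hxy => ?_⟩
  by_contra hn
  obtain ⟨n, hn'⟩ := exists_nat_one_div_lt (abs_pos.2 (sub_ne_zero.2 hn))
  exact absurd (hu n x hx y hy fun i hi => hxy i (mem_iUnion.2 ⟨n, hi⟩)) (not_lt.2 hn'.le)

def sp : Ix Γ → Set Γ
  | none => ∅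
  | some (Sum.inl a) => {a}
  | some (Sum.inr (a, b)) => {a, b}

theorem spf (i : Ix Γ) : (sp i).Finite := by
  rcases i with _ | a | ⟨a, b⟩ <;> simp [sp]

def IM (M : Set Γ) : Set (Ix Γ) := {i | sp i ⊆ M}

theorem IMc {M : Set Γ} (h : M.Countable) : (IM M).Countable := by
  refine ((countable_singleton none).union ((h.image c1).union (h.image2 h c2))).mono ?_
  rintro (_ | a | ⟨a, b⟩) hi
  · exact Or.inl rfl
  · exact Or.inr (Or.inl ⟨a, hi rfl, rfl⟩)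
  · exact Or.inr (Or.inr ⟨a, hi (Or.inl rfl), b, hi (Or.inr rfl), rfl⟩)

theorem den {A : Set (Ix Γ → ℂ)} (hd : BB Γ ⊆ closure A) (M : Set Γ) :
    ∃ C : Set (Ix Γ → ℂ), C.Countable ∧ C ⊆ A ∧ (M.Countable → ∀ ψ ∈ BB Γ,
      (IM M).domRestrict ψ ∈ closure ((IM M).domRestrict '' C)) := by
  by_cases hM : M.Countable
  · have := (IMc hM).to_subtype
    obtain ⟨t, h1, h2, h3⟩ := (TopologicalSpace.IsSeparable.of_separableSpace
      ((IM M).domRestrict '' A)).exists_countable_dense_subset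
    choose g hg1 hg2 using h1
    have := h2.to_subtype
    refine ⟨range fun y : t => g y.2, countable_range _, ?_, fun _ ψ hψ => ?_⟩
    · rintro _ ⟨y, rfl⟩; exact hg1 y.2
    · have h4 : (IM M).domRestrict ψ ∈ closure ((IM M).domRestrict '' A) :=
        mem_closure_image (Pi.continuous_domRestrict _).continuousAt (hd hψ)
      refine closure_mono (s := t) (fun y hy => mem_image_of_mem _ (mem_range_self
        (f := fun y : t => g y.2) ⟨y, hy⟩) |> (hg2 hy ▸ ·)) ?_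
      exact closure_minimal h3 isClosed_closure h4
  · exact ⟨∅, countable_empty, empty_subset _, fun h => absurd h hM⟩

theorem clo {Θ : Type} (h : (Ix Γ → ℂ) → Θ → ℝ) (hc : ContinuousOn h (BB Γ))
    (hi : InjOn h (BB Γ)) {A : Set (Ix Γ → ℂ)}
    (hA : A = BB Γ ∩ h ⁻¹' {y : Θ → ℝ | {θ | y θ ≠ 0}.Countable}) (hd : BB Γ ⊆ closure A)
    (hv : ∀ a ∈ A, ∀ b ∈ A, ∀ s t : ℂ, ‖s‖ + ‖t‖ ≤ 1 → s • a + t • b ∈ A)
    {a : Ix Γ → ℂ} (ha : a ∈ A) (M0 : Set Γ) (hM0 : M0.Countable) :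
    ∃ (M : Set Γ) (K : Set (Ix Γ → ℂ)), M.Countable ∧ M0 ⊆ M ∧ IsCompact K ∧ K ⊆ BB Γ ∧ a ∈ K ∧
      (∀ x ∈ K, ∀ y ∈ K, ∀ s t : ℂ, ‖s‖ + ‖t‖ ≤ 1 → s • x + t • y ∈ K) ∧
      (∀ x ∈ K, ∀ y ∈ K, (∀ i ∈ IM M, x i = y i) → x = y) ∧
      ∀ ψ ∈ BB Γ, ∃ k ∈ K, ∀ i ∈ IM M, k i = ψ i := by
  have hAB : A ⊆ BB Γ := hA ▸ inter_subset_left
  have hAc : ∀ x ∈ A, {θ | h x θ ≠ 0}.Countable := fun x hx => (hA ▸ hx).2
  choose dp hdp1 hdp2 using fun θ =>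
    dep cpt (fun x => h x θ) ((continuous_apply θ).comp_continuousOn hc)
  choose dn hdn1 hdn2 hdn3 using den hd
  obtain ⟨Q, hQ1, hQ2, hQ3⟩ := (TopologicalSpace.IsSeparable.of_separableSpace
      {p : ℂ × ℂ | ‖p.1‖ + ‖p.2‖ ≤ 1}).exists_countable_dense_subset
  let cb : (ℂ × ℂ) × (Ix Γ → ℂ) × (Ix Γ → ℂ) → Ix Γ → ℂ := fun p => p.1.1 • p.2.1 + p.1.2 • p.2.2
  let St := {p : Set Γ × Set (Ix Γ → ℂ) // p.1.Countable ∧ p.2.Countable ∧ p.2 ⊆ A}
  let nx : St → St := fun p => ⟨(p.1.1 ∪ ⋃ x ∈ p.1.2, ⋃ θ ∈ {θ | h x θ ≠ 0}, ⋃ i ∈ dp θ, sp i,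
      p.1.2 ∪ (cb '' (Q ×ˢ p.1.2 ×ˢ p.1.2) ∪ dn p.1.1)),
      p.2.1.union (p.2.2.1.biUnion fun x hx => (hAc x (p.2.2.2 hx)).biUnion fun θ _ =>
        (hdp1 θ).biUnion fun i _ => (spf i).countable),
      p.2.2.1.union (((hQ2.prod (p.2.2.1.prod p.2.2.1)).image _).union (hdn1 _)),
      union_subset p.2.2.2 (union_subset (by
        rintro _ ⟨q, hq, rfl⟩
        exact hv _ (p.2.2.2 hq.2.1) _ (p.2.2.2 hq.2.2) _ _ (hQ1 hq.1)) (hdn2 _))⟩
  let T : ℕ → St := fun n => nx^[n] ⟨(M0, {a}), hM0, countable_singleton a,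
    singleton_subset_iff.2 ha⟩
  have hT : ∀ n, T (n + 1) = nx (T n) := fun n => Function.iterate_succ_apply' _ _ _
  have m1 : Monotone fun n => (T n).1.1 := monotone_nat_of_le_succ fun n => by
    rw [hT]; exact subset_union_left
  have m2 : Monotone fun n => (T n).1.2 := monotone_nat_of_le_succ fun n => by
    rw [hT]; exact subset_union_left
  let C := ⋃ n, (T n).1.2
  have hCA : C ⊆ A := iUnion_subset fun n => (T n).2.2.2
  have hKB : closure C ⊆ BB Γ := closure_minimal (hCA.trans hAB) isClosed_closure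
  have hK : IsCompact (closure C) := cpt.of_isClosed_subset isClosed_closure hKB
  refine ⟨⋃ n, (T n).1.1, closure C, countable_iUnion fun n => (T n).2.1,
    subset_iUnion (fun n => (T n).1.1) 0, hK, hKB,
    subset_closure (mem_iUnion.2 ⟨0, mem_singleton a⟩), ?_, ?_, ?_⟩
  · intro x hx y hy s t hst
    have h1 : ((s, t), x, y) ∈ closure (Q ×ˢ C ×ˢ C) := by
      rw [closure_prod_eq, closure_prod_eq]
      exact ⟨hQ3 hst, hx, hy⟩
    refine map_mem_closure (f := cb) (by fun_prop) h1 ?_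
    rintro q ⟨q1, q2, q3⟩
    obtain ⟨n, hn⟩ := mem_iUnion.1 q2
    obtain ⟨m, hm⟩ := mem_iUnion.1 q3
    refine mem_iUnion.2 ⟨max n m + 1, ?_⟩
    rw [hT]
    exact Or.inr (Or.inl ⟨q, ⟨q1, m2 (le_max_left _ _) hn, m2 (le_max_right _ _) hm⟩, rfl⟩)
  · intro x hx y hy hxy
    refine hi (hKB hx) (hKB hy) (funext fun θ => ?_)
    by_cases hθ : ∃ z ∈ C, h z θ ≠ 0
    · obtain ⟨z, hz, hzθ⟩ := hθ
      obtain ⟨n, hn⟩ := mem_iUnion.1 hz
      refine hdp2 θ x (hKB hx) y (hKB hy) fun i hi' => hxy i fun b hb => ?_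
      refine mem_iUnion.2 ⟨n + 1, ?_⟩
      rw [hT]
      exact Or.inr (mem_iUnion₂.2 ⟨z, hn, mem_iUnion₂.2 ⟨θ, hzθ, mem_iUnion₂.2 ⟨i, hi', hb⟩⟩⟩)
    · push Not at hθ
      have hcl : IsClosed (BB Γ ∩ (fun x => h x θ) ⁻¹' {0}) :=
        ((continuous_apply θ).comp_continuousOn hc).preimage_isClosed_of_isClosed
          isClosed_closure isClosed_singleton
      have h2 := closure_minimal (fun z hz => And.intro (hAB (hCA hz)) (hθ z hz)) hcl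
      exact (h2 hx).2.trans (h2 hy).2.symm
  · intro ψ hψ
    have hcl : ∀ n, IsClosed (closure C ∩ {k | ∀ i ∈ IM (T n).1.1, k i = ψ i}) := fun n => by
      refine isClosed_closure.inter ?_
      simp only [ofPred_forall]
      exact isClosed_iInter fun i => isClosed_iInter fun _ =>
        isClosed_eq (continuous_apply i) continuous_const
    obtain ⟨k, hk⟩ := IsCompact.nonempty_iInter_of_sequence_nonempty_isCompact_isClosed
      (fun n => closure C ∩ {k | ∀ i ∈ IM (T n).1.1, k i = ψ i})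
      (fun n k hk => And.intro hk.1 fun i hi' => hk.2 i (Subset.trans hi' (m1 (Nat.le_succ n))))
      (fun n => by
        have h1 := hdn3 _ (T n).2.1 ψ hψ
        have h2 : IsClosed ((IM (T n).1.1).domRestrict '' closure C) :=
          (hK.image (Pi.continuous_domRestrict _)).isClosed
        obtain ⟨k, hk, hk'⟩ := closure_minimal (image_mono fun z hz => subset_closure
          (mem_iUnion.2 ⟨n + 1, by rw [hT]; exact Or.inr (Or.inr hz)⟩)) h2 h1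
        exact ⟨k, hk, fun i hi' => congrFun hk' ⟨i, hi'⟩⟩)
      (hK.of_isClosed_subset (hcl 0) inter_subset_left) hcl
    refine ⟨k, (mem_iInter.1 hk 0).1, fun i hi' => ?_⟩
    obtain ⟨n, hn⟩ : ∃ n, sp i ⊆ (T n).1.1 := by
      rcases i with _ | b | ⟨b, c⟩
      · exact ⟨0, empty_subset _⟩
      · obtain ⟨n, hn⟩ := mem_iUnion.1 (hi' (mem_singleton b))
        exact ⟨n, singleton_subset_iff.2 hn⟩
      · obtain ⟨n, hn⟩ := mem_iUnion.1 (hi' (Or.inl rfl : b ∈ sp (c2 b c)))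
        obtain ⟨m, hm⟩ := mem_iUnion.1 (hi' (Or.inr rfl : c ∈ sp (c2 b c)))
        exact ⟨max n m, insert_subset (m1 (le_max_left _ _) hn)
          (singleton_subset_iff.2 (m1 (le_max_right _ _) hm))⟩
    exact (mem_iInter.1 hk n).2 i hn

theorem ret {M : Set Γ} {K : Set (Ix Γ → ℂ)} (hM : M.Infinite) (hK : IsCompact K)
    (hKB : K ⊆ BB Γ) {a : Ix Γ → ℂ} (ha : a ∈ K)
    (hv : ∀ x ∈ K, ∀ y ∈ K, ∀ s t : ℂ, ‖s‖ + ‖t‖ ≤ 1 → s • x + t • y ∈ K)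
    (hi : ∀ x ∈ K, ∀ y ∈ K, (∀ i ∈ IM M, x i = y i) → x = y)
    (hs : ∀ ψ ∈ BB Γ, ∃ k ∈ K, ∀ i ∈ IM M, k i = ψ i) {γ δ : Γ} (hγ : γ ∈ M) (hδ : δ ∉ M) :
    a (c2 γ δ) = - a none := by
  have h0 : (0 : Ix Γ → ℂ) ∈ K := by simpa using hv a ha a ha 0 0 (by simp)
  let W : Submodule ℂ (Ix Γ → ℂ) :=
    { carrier := {x | ∃ r : ℂ, ∃ k ∈ K, x = r • k}
      zero_mem' := ⟨0, 0, h0, by simp⟩
      smul_mem' := by
        rintro c _ ⟨r, k, hk, rfl⟩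
        exact ⟨c * r, k, hk, smul_smul _ _ _⟩
      add_mem' := by
        rintro _ _ ⟨r, k, hk, rfl⟩ ⟨r', k', hk', rfl⟩
        have hp : (0 : ℝ) < ‖r‖ + ‖r'‖ + 1 := by positivity
        have hp' : ((‖r‖ + ‖r'‖ + 1 : ℝ) : ℂ) ≠ 0 := Complex.ofReal_ne_zero.2 hp.ne'
        refine ⟨((‖r‖ + ‖r'‖ + 1 : ℝ) : ℂ), _, hv k hk k' hk' (r / ((‖r‖ + ‖r'‖ + 1 : ℝ) : ℂ))
          (r' / ((‖r‖ + ‖r'‖ + 1 : ℝ) : ℂ)) ?_, ?_⟩
        · rw [norm_div, norm_div, Complex.norm_real, Real.norm_of_nonneg hp.le, ← add_div,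
            div_le_one hp]
          linarith
        · rw [smul_add, smul_smul, smul_smul, mul_div_cancel₀ _ hp', mul_div_cancel₀ _ hp'] }
  let π : (Ix Γ → ℂ) →ₗ[ℂ] (IM M → ℂ) := LinearMap.funLeft ℂ ℂ Subtype.val
  have hπc : Continuous π := Pi.continuous_domRestrict _
  obtain ⟨g, hg⟩ := LinearMap.exists_leftInverse_of_injective (π.comp W.subtype) (by
    rw [LinearMap.ker_eq_bot']
    rintro ⟨_, r, k, hk, rfl⟩ hx
    by_cases hr : r = 0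
    · simp [hr]
    · have : k = 0 := hi k hk 0 h0 fun i hi' =>
        (mul_eq_zero.1 (congrFun hx ⟨i, hi'⟩)).resolve_left hr
      simp [this])
  let R : (Ix Γ → ℂ) →ₗ[ℂ] (Ix Γ → ℂ) := W.subtype.comp (g.comp π)
  have hR : ∀ ψ, ∀ k ∈ K, π k = π ψ → R ψ = k := by
    intro ψ k hk e
    have h1 := LinearMap.congr_fun hg ⟨k, 1, k, hk, (one_smul _ _).symm⟩
    change (g (π ψ) : Ix Γ → ℂ) = k
    rw [← e]
    exact congrArg Subtype.val h1
  have hR' : ∀ ψ ∈ BB Γ, R ψ ∈ K ∧ π (R ψ) = π ψ := by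
    intro ψ hψ
    obtain ⟨k, hk, e⟩ := hs ψ hψ
    have e' : π k = π ψ := funext fun i => e i i.2
    rw [hR ψ k hk e']
    exact ⟨hk, e'⟩
  have := alg M hM R (fun ψ hψ => hKB (hR' ψ hψ).1) ?_ ?_
    (fun ψ hψ => congrFun (hR' ψ hψ).2 ⟨none, empty_subset _⟩)
    (fun ψ hψ b hb => congrFun (hR' ψ hψ).2 ⟨c1 b, singleton_subset_iff.2 hb⟩) hγ hδ a (hKB ha)
  · rwa [hR a a ha rfl] at this
  · refine continuousOn_iff_isClosed.2 fun t ht => ⟨π ⁻¹' (π '' (K ∩ t)),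
      ((hK.inter_right ht).image hπc).isClosed.preimage hπc, ?_⟩
    ext ψ
    refine ⟨fun h => ⟨⟨R ψ, ⟨(hR' ψ h.2).1, h.1⟩, (hR' ψ h.2).2⟩, h.2⟩, ?_⟩
    rintro ⟨⟨k, hk, e⟩, hψ⟩
    exact ⟨by rw [mem_preimage, hR ψ k hk.1 e]; exact hk.2, hψ⟩
  · intro x x0 x1 x2
    refine hR x 0 h0 (funext ?_)
    rintro ⟨_ | b | ⟨b, c⟩, hb⟩
    · exact x0.symm
    · exact (x1 b (hb rfl)).symm
    · exact (x2 b (hb (Or.inl rfl)) c (hb (Or.inr rfl))).symm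

theorem free (M : Set ℝ → Set (Set ℝ)) (hM : ∀ γ, (M γ).Countable) :
    ∃ γ δ, γ ∉ M δ ∧ δ ∉ M γ := by
  have h1 : ∃ δ, ∀ x : ℝ, δ ∉ M {x} := by
    by_contra hn
    push Not at hn
    have h2 : (univ : Set (Set ℝ)) ⊆ ⋃ x : ℝ, M {x} := fun δ _ => mem_iUnion.2 (hn δ)
    have h3 := (Cardinal.mk_le_mk_of_subset h2).trans (Cardinal.mk_iUnion_le _)
    have h4 : ⨆ x : ℝ, Cardinal.mk (M {x}) ≤ Cardinal.aleph0 :=
      ciSup_le' fun x => (hM _).le_aleph0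
    have h5 := h3.trans (mul_le_mul_right h4 _)
    rw [Cardinal.mk_univ, Cardinal.mk_set, Cardinal.mk_real, Cardinal.continuum_mul_aleph0] at h5
    exact absurd h5 (not_le.2 (Cardinal.cantor _))
  obtain ⟨δ, hδ⟩ := h1
  have h2 : ∃ x : ℝ, {x} ∉ M δ := by
    by_contra hn
    push Not at hn
    refine Cardinal.not_countable_real (((hM δ).preimage singleton_injective).mono fun x _ => hn x)
  obtain ⟨x, hx⟩ := h2
  exact ⟨{x}, δ, hx, hδ x⟩

theorem main {Θ : Type} (h : (Ix (Set ℝ) → ℂ) → Θ → ℝ) (hc : ContinuousOn h (BB _))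
    (hi : InjOn h (BB _)) {A : Set (Ix (Set ℝ) → ℂ)}
    (hA : A = BB _ ∩ h ⁻¹' {y : Θ → ℝ | {θ | y θ ≠ 0}.Countable}) (hd : BB _ ⊆ closure A)
    (hv : ∀ a ∈ A, ∀ b ∈ A, ∀ s t : ℂ, ‖s‖ + ‖t‖ ≤ 1 → s • a + t • b ∈ A) : False := by
  obtain ⟨a, ha0, ha⟩ := mem_closure_iff.1 (hd T0.mem) {x | x none ≠ 0}
    (isOpen_ne_fun (continuous_apply _) continuous_const) (by simp [e0, VV, mk])
  choose M K h1 h2 h3 h4 h5 h6 h7 h8 using fun γ : Set ℝ => clo h hc hi hA hd hv ha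
    (insert γ (range fun n : ℕ => {(n : ℝ)})) ((countable_range _).insert γ)
  have hM : ∀ γ, (M γ).Infinite := fun γ =>
    (infinite_range_of_injective (singleton_injective.comp Nat.cast_injective)).mono
      ((subset_insert _ _).trans (h2 γ))
  obtain ⟨γ, δ, e1, e2⟩ := free M h1
  have a1 := ret (hM γ) (h3 γ) (h4 γ) (h5 γ) (h6 γ) (h7 γ) (h8 γ) (h2 γ (mem_insert _ _)) e2
  have a2 := ret (hM δ) (h3 δ) (h4 δ) (h5 δ) (h6 δ) (h7 δ) (h8 δ) (h2 δ (mem_insert _ _)) e1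
  have a3 := anti (h4 γ (h5 γ)) γ δ
  exact ha0 (by linear_combination (a1 + a2 - a3) / 2)

end Pool.Agent.H.MP_54c5a6
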