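import Pool.Agent.H.MP_54c5a6.C

set_option autoImplicit false
open Set Filter Topology ComplexConjugate

namespace Pool.Agent.H.MP_54c5a6

variable {Γ : Type}

instance cB : CompactSpace (BB Γ) := isCompact_iff_compactSpace.1 cpt

def ev (i : Ix Γ) : C(BB Γ, ℂ) := ⟨fun b => b.1 i, (continuous_apply i).comp continuous_subtype_val⟩

noncomputable def XS (Γ : Type) : Submodule ℂ C(BB Γ, ℂ) :=
  (Submodule.span ℂ (range (ev (Γ := Γ)))).topologicalClosure

instance cX : CompleteSpace (XS Γ) :=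
  (Submodule.isClosed_topologicalClosure _).completeSpace_coe

noncomputable def ee (i : Ix Γ) : XS Γ :=
  ⟨ev i, Submodule.le_topologicalClosure _ (Submodule.subset_span (mem_range_self i))⟩

noncomputable def Ps (ξ : WeakDual ℂ (XS Γ)) : Ix Γ → ℂ := fun i => ξ (ee i)

def Bl (Γ : Type) : Set (WeakDual ℂ (XS Γ)) := {φ | ∀ x : XS Γ, ‖φ x‖ ≤ ‖x‖}

theorem Psc : Continuous (Ps (Γ := Γ)) := continuous_pi fun _ => WeakDual.eval_continuous _

theorem Psl (s t : ℂ) (a b : WeakDual ℂ (XS Γ)) : Ps (s • a + t • b) = s • Ps a + t • Ps b := rfl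

theorem Psi : Function.Injective (Ps (Γ := Γ)) := by
  intro a b hab
  have hd : Dense (Submodule.span ℂ (range (ee (Γ := Γ))) : Set (XS Γ)) := by
    rw [Subtype.dense_iff]
    have : (↑) '' (Submodule.span ℂ (range (ee (Γ := Γ))) : Set (XS Γ)) =
        (Submodule.span ℂ (range (ev (Γ := Γ))) : Set C(BB Γ, ℂ)) := by
      have h1 := Submodule.map_span (XS Γ).subtype (range (ee (Γ := Γ)))
      rw [← range_comp] at h1
      exact congrArg SetLike.coe h1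
    exact Subset.rfl.trans (congrArg closure this).ge
  refine ContinuousLinearMap.ext_on hd ?_
  rintro _ ⟨i, rfl⟩
  exact congrFun hab i

theorem Blc : IsCompact (Bl Γ) := by
  convert WeakDual.isCompact_closedBall (0 : StrongDual ℂ (XS Γ)) 1 using 1
  ext φ
  simp only [mem_preimage, mem_closedBall_zero_iff]
  rw [ContinuousLinearMap.opNorm_le_iff zero_le_one]
  simp only [one_mul]
  rfl

theorem Pss {b : Ix Γ → ℂ} (hb : b ∈ BB Γ) : ∃ ξ ∈ Bl Γ, Ps ξ = b :=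
  ⟨(ContinuousMap.evalCLM ℂ (⟨b, hb⟩ : BB Γ)).comp (XS Γ).subtypeL,
    fun x => ContinuousMap.norm_coe_le_norm x.1 _, rfl⟩

theorem Psm {ξ : WeakDual ℂ (XS Γ)} (hξ : ξ ∈ Bl Γ) : Ps ξ ∈ BB Γ := by
  by_contra hn
  obtain ⟨f, u, h1, h2⟩ := RCLike.geometric_hahn_banach_closed_point (𝕜 := ℂ) cvx
    isClosed_closure hn
  have h3 : (f : (Ix Γ → ℂ) →ₗ[ℂ] ℂ) ∈ Submodule.span ℂ
      (range fun i : Ix Γ => (LinearMap.proj i : (Ix Γ → ℂ) →ₗ[ℂ] ℂ)) :=
    (LinearMap.mem_span_iff_continuous _).2 f.continuous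
  have h4 : ∀ g ∈ Submodule.span ℂ
      (range fun i : Ix Γ => (LinearMap.proj i : (Ix Γ → ℂ) →ₗ[ℂ] ℂ)),
      ∃ x : XS Γ, (∀ b : BB Γ, x.1 b = g b) ∧ ξ x = g (Ps ξ) := by
    intro g hg
    induction hg using Submodule.span_induction with
    | mem g hg =>
      obtain ⟨i, rfl⟩ := hg
      exact ⟨ee i, fun _ => rfl, rfl⟩
    | zero => exact ⟨0, fun _ => rfl, map_zero ξ⟩
    | add g g' _ _ a b =>
      obtain ⟨x, x1, x2⟩ := a
      obtain ⟨y, y1, y2⟩ := b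
      exact ⟨x + y, fun b => by simp [x1, y1], by rw [map_add, x2, y2]; rfl⟩
    | smul c g _ a =>
      obtain ⟨x, x1, x2⟩ := a
      exact ⟨c • x, fun b => by simp [x1], by rw [map_smul, x2]; rfl⟩
  obtain ⟨x, x1, x2⟩ := h4 _ h3
  have h5 : ∀ b : BB Γ, ‖x.1 b‖ ≤ u := by
    intro b
    obtain ⟨c, c1, c2⟩ := Complex.exists_norm_eq_mul_self (x.1 b)
    have := h1 _ (rot b.2 c1)
    rw [map_smul, smul_eq_mul] at this
    have e : (f b : ℂ) = x.1 b := (x1 b).symm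
    rw [e, ← c2] at this
    exact this.le
  have h6 : ‖x‖ ≤ u :=
    (ContinuousMap.norm_le _ ((norm_nonneg _).trans (h5 ⟨_, T0.mem⟩))).2 h5
  have h7 : (f (Ps ξ)).re ≤ ‖ξ x‖ := by rw [x2]; exact Complex.re_le_norm _
  exact absurd (h7.trans ((hξ x).trans h6)) (not_le.2 h2)

def ww (ψ : Ix Γ → ℂ) : Ix Γ → ℂ
  | none => ψ none
  | some (Sum.inl a) => ψ (c1 a) - conj (ψ none)
  | some (Sum.inr (a, b)) => ψ (c2 a b) - (conj (ψ (c1 a)) - conj (ψ (c1 b)))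

theorem wwc : Continuous (ww (Γ := Γ)) := continuous_pi fun i => by
  rcases i with _ | a | ⟨a, b⟩ <;> simp only [ww] <;> fun_prop

theorem wwi : Function.Injective (ww (Γ := Γ)) := by
  intro x y h
  have h0 : x none = y none := congrFun h none
  have h1 : ∀ a, x (c1 a) = y (c1 a) := fun a => by
    have := congrFun h (c1 a)
    simpa [ww, h0] using this
  funext i
  rcases i with _ | a | ⟨a, b⟩
  · exact h0
  · exact h1 a
  · have := congrFun h (c2 a b)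
    simpa [ww, h1] using this

theorem wwl (s t : ℝ) (x y : Ix Γ → ℂ) (i : Ix Γ) :
    ww ((s : ℂ) • x + (t : ℂ) • y) i = s * ww x i + t * ww y i := by
  rcases i with _ | a | ⟨a, b⟩ <;> simp [ww] <;> ring

theorem wws (s t : ℝ) {x y : Ix Γ → ℂ} (hx : {i | ww x i ≠ 0}.Countable)
    (hy : {i | ww y i ≠ 0}.Countable) : {i | ww ((s : ℂ) • x + (t : ℂ) • y) i ≠ 0}.Countable := by
  refine (hx.union hy).mono fun i hi => ?_
  by_contra hn
  simp only [mem_union, mem_ofPred_eq, not_or, not_not] at hn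
  exact hi (by rw [wwl, hn.1, hn.2]; simp)

theorem wwd : BB Γ ⊆ closure (BB Γ ∩ {x | {i | ww x i ≠ 0}.Countable}) := by
  refine sub isClosed_closure (Convex.closure (cvx.inter fun x hx y hy s t _ _ _ => wws s t hx hy))
    fun ψ h => mem_closure_of_tendsto (pA_lim ψ) (Eventually.of_forall fun A =>
      ⟨(h.pA A).mem, (IMc A.countable_toSet).mono fun i hi => ?_⟩)
  by_contra hn
  apply hi
  rcases i with _ | a | ⟨a, b⟩
  · exact absurd (empty_subset _) hn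
  · have : a ∉ A := fun ha => hn (singleton_subset_iff.2 ha)
    simp [ww, pA, p1, this]
  · have : ¬ (a ∈ A ∧ b ∈ A) := fun ha => hn (insert_subset ha.1 (singleton_subset_iff.2 ha.2))
    simp [ww, pA, this]

noncomputable def hh (ξ : WeakDual ℂ (XS Γ)) (p : Ix Γ × Bool) : ℝ :=
  if p.2 = true then (ww (Ps ξ) p.1).re else (ww (Ps ξ) p.1).im

theorem hhs (ξ : WeakDual ℂ (XS Γ)) :
    {p | hh ξ p ≠ 0}.Countable ↔ {i | ww (Ps ξ) i ≠ 0}.Countable := by
  constructor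
  · intro h
    refine (h.image Prod.fst).mono fun i hi => ?_
    by_contra hn
    apply hi
    apply Complex.ext
    · by_contra h1
      exact hn ⟨(i, true), by simpa [hh] using h1, rfl⟩
    · by_contra h1
      exact hn ⟨(i, false), by simpa [hh] using h1, rfl⟩
  · intro h
    refine (h.prod (countable_univ (α := Bool))).mono fun p hp => And.intro ?_ (mem_univ _)
    intro h0
    apply hp
    simp [hh, h0]

theorem hyp : ∃ A : Set (WeakDual ℂ (XS Γ)), Bl Γ ⊆ closure A ∧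
    (∃ (Θ : Type) (h : WeakDual ℂ (XS Γ) → (Θ → ℝ)), ContinuousOn h (Bl Γ) ∧ InjOn h (Bl Γ) ∧
      A = Bl Γ ∩ h ⁻¹' {y : Θ → ℝ | Set.Countable {γ : Θ | y γ ≠ 0}}) ∧
    (∀ a ∈ A, ∀ b ∈ A, ∀ t : ℝ, 0 ≤ t → t ≤ 1 → ((t : ℂ) • a + ((1 : ℂ) - (t : ℂ)) • b) ∈ A) ∧
    (∀ a ∈ A, ((-1 : ℂ) • a) ∈ A) := by
  refine ⟨_, ?_, ⟨_, hh, ?_, ?_, rfl⟩, ?_, ?_⟩
  · intro ξ hξ
    have h1 : IsCompact (closure (Bl Γ ∩ hh ⁻¹' {y | {γ | y γ ≠ 0}.Countable})) :=
      Blc.of_isClosed_subset isClosed_closure (closure_minimal inter_subset_left Blc.isClosed)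
    obtain ⟨ξ', h2, h3⟩ := closure_minimal (fun b hb => by
      obtain ⟨η, e1, rfl⟩ := Pss hb.1
      exact ⟨η, subset_closure ⟨e1, (hhs η).2 hb.2⟩, rfl⟩) (h1.image Psc).isClosed (wwd (Psm hξ))
    exact Psi h3 ▸ h2
  · refine (continuous_pi fun p => ?_).continuousOn
    have := (continuous_apply p.1).comp (wwc.comp (Psc (Γ := Γ)))
    unfold hh
    split_ifs
    · exact Complex.continuous_re.comp this
    · exact Complex.continuous_im.comp this
  · intro a _ b _ hab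
    refine Psi (wwi (funext fun i => Complex.ext ?_ ?_))
    · simpa [hh] using congrFun hab (i, true)
    · simpa [hh] using congrFun hab (i, false)
  · intro a ha b hb t t0 t1
    refine ⟨fun x => ?_, (hhs _).2 ?_⟩
    · change ‖(t : ℂ) * a x + (1 - (t : ℂ)) * b x‖ ≤ ‖x‖
      refine (norm_add_le _ _).trans ?_
      rw [norm_mul, norm_mul, ← Complex.ofReal_one, ← Complex.ofReal_sub, Complex.norm_real,
        Complex.norm_real, Real.norm_of_nonneg t0, Real.norm_of_nonneg (sub_nonneg.2 t1)]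
      nlinarith [ha.1 x, hb.1 x]
    · rw [Psl, ← Complex.ofReal_one, ← Complex.ofReal_sub]
      exact wws _ _ ((hhs a).1 ha.2) ((hhs b).1 hb.2)
  · intro a ha
    refine ⟨fun x => ?_, (hhs _).2 ?_⟩
    · change ‖(-1 : ℂ) * a x‖ ≤ ‖x‖
      rw [norm_mul, norm_neg, norm_one, one_mul]
      exact ha.1 x
    · have := wws (-1) 0 ((hhs a).1 ha.2) ((hhs a).1 ha.2)
      have e : Ps ((-1 : ℂ) • a) = ((-1 : ℝ) : ℂ) • Ps a + ((0 : ℝ) : ℂ) • Ps a := by
        rw [Complex.ofReal_zero, zero_smul, add_zero, Complex.ofReal_neg, Complex.ofReal_one]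
        rfl
      rw [e]
      exact this

theorem nocon : ¬ ∃ A : Set (WeakDual ℂ (XS (Set ℝ))), Bl _ ⊆ closure A ∧
    (∃ (Θ : Type) (h : WeakDual ℂ (XS (Set ℝ)) → (Θ → ℝ)), ContinuousOn h (Bl _) ∧
      InjOn h (Bl _) ∧ A = Bl _ ∩ h ⁻¹' {y : Θ → ℝ | Set.Countable {γ : Θ | y γ ≠ 0}}) ∧
    (∀ a ∈ A, ∀ b ∈ A, ∀ s t : ℂ, ‖s‖ + ‖t‖ ≤ 1 → (s • a + t • b) ∈ A) := by
  rintro ⟨A, hd, ⟨Θ, h, hc, hi, hA⟩, hv⟩
  let g := Function.invFun (Ps (Γ := Set ℝ))
  have hg : ∀ ξ, g (Ps ξ) = ξ := Function.leftInverse_invFun Psi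
  refine main (h ∘ g) ?_ ?_ (A := Ps '' A) ?_ ?_ ?_
  · refine continuousOn_iff_isClosed.2 fun t ht => ⟨Ps '' (Bl _ ∩ h ⁻¹' t),
      ((Blc.of_isClosed_subset (hc.preimage_isClosed_of_isClosed Blc.isClosed ht)
        inter_subset_left).image Psc).isClosed, ?_⟩
    ext b
    constructor
    · rintro ⟨h1, h2⟩
      obtain ⟨ξ, e, rfl⟩ := Pss h2
      exact ⟨⟨ξ, ⟨e, by simpa [hg] using h1⟩, rfl⟩, h2⟩
    · rintro ⟨⟨ξ, e, rfl⟩, h2⟩
      exact ⟨by simpa [hg] using e.2, h2⟩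
  · intro x hx y hy e
    obtain ⟨ξ, e1, rfl⟩ := Pss hx
    obtain ⟨η, e2, rfl⟩ := Pss hy
    simp only [Function.comp, hg] at e
    rw [hi e1 e2 e]
  · ext b
    constructor
    · rintro ⟨ξ, e, rfl⟩
      rw [hA] at e
      exact ⟨Psm e.1, by simpa [hg] using e.2⟩
    · rintro ⟨h1, h2⟩
      obtain ⟨ξ, e, rfl⟩ := Pss h1
      exact ⟨ξ, hA ▸ ⟨e, by simpa [hg] using h2⟩, rfl⟩
  · intro b hb
    obtain ⟨ξ, e, rfl⟩ := Pss hb
    exact mem_closure_image Psc.continuousAt (hd e)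
  · rintro _ ⟨a, ha, rfl⟩ _ ⟨b, hb, rfl⟩ s t hst
    exact ⟨_, hv a ha b hb s t hst, rfl⟩

end Pool.Agent.H.MP_54c5a6
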